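import Pool.Agent.R123.FivePow.Power

/-!
# An abelian 10-power free morphism with a 5-power free fixed point avoiding `bb`

The letter `a` is `false` and the letter `b` is `true`. The answer to Q1 is yes: the morphism
`h(a) = aabaa`, `h(b) = aabababab` is abelian 10-power free, and its fixed point is 5-power free and
has no factor `bb`.
-/

set_option autoImplicit false

namespace Pool.Agent.Results.MP_8f8c07_co.AbelianTenPowerFree

open Pool.Agent.R123.Words Pool.Agent.R123.FivePow

/-- There are a morphism `h` of the binary words (given by the images of the letters `a = false` and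
`b = true`), a number `k ≥ 2` and an infinite word `y` such that `h` is abelian `k`-power free,
`h(a) = a t` with `t` nonempty, `y` is the fixed point `h^ω(a)`, `y` is 5-power free and `y` has no
factor `bb`. -/
theorem result : ∃ (h : Bool → List Bool) (k : ℕ) (y : ℕ → Bool),
    2 ≤ k ∧ AbelianPowerFreeMorphism k h ∧
    (∃ t, t ≠ [] ∧ h false = false :: t) ∧ IsFixedPoint h false y ∧
    (∀ i p, 0 < p → ∃ j, j < 4 * p ∧ y (i + j) ≠ y (i + p + j)) ∧
    (∀ n, ¬ (y n = true ∧ y (n + 1) = true)) :=
  ⟨h, 10, y, by norm_num, abelian_ten, ⟨_, by simp, rfl⟩, y_fixed,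
    fun i p hp => five_free p i hp, no_bb⟩

end Pool.Agent.Results.MP_8f8c07_co.AbelianTenPowerFree
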